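import Pool.Agent.Run7.h178.PM.PB

/-! Piece DEL of the interface `Run7/h282/PM/Iface`: growth of the increments of `p`. -/

set_option autoImplicit false

open Finset Run7.h282.PM

namespace Run7.h178.PM

variable {F : Type} [Field F] [Fintype F] {κ : Type} [Fintype κ] [DecidableEq κ]

/-- multiplying by a linear form makes zero more likely -/
theorem a0_le_mul (x : κ → F) (y : Finset κ → F) : A0 F κ zf y ≤ A0 F κ zf (mulv x y) := by
  unfold A0 Aop
  apply div_le_div_of_nonneg_right _ (by positivity)
  refine Finset.sum_le_sum fun x' _ => ?_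
  by_cases h : mulv x' y = 0
  · rw [(t_BASE F κ).1 x' x y, h, mulv_zero]
  · rw [zf_of_ne h]
    exact zf_nonneg _

/-- the increment in degree `m` -/
theorem incr (m : ℕ) (y : Finset κ → F) (hy : Hom m y) :
    (1 - q F ^ m / q F ^ (Fintype.card κ)) * (A0 F κ zf y - zf y) ≤
      A0 F κ (fun z => A0 F κ zf z - zf z) y := by
  by_cases h : y = 0
  · rw [h, a0_zero, a0_zero, a0_zero]
    simp
  · rw [zf_of_ne h, sub_zero]
    have h0 := a0_zf_nonneg y
    have h1 := t_RKB F κ m y hy h
    have h2 : A0 F κ (fun z => A0 F κ zf y - A0 F κ zf y * zf z) y ≤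
        A0 F κ (fun z => A0 F κ zf z - zf z) y := by
      apply aop_mono
      intro x
      by_cases hx : mulv x y = 0
      · simp only [hx]
        rw [zf_zero, a0_zero, zf_zero]
        linarith
      · have := a0_le_mul x y
        have e := zf_of_ne hx
        rw [e]
        linarith
    have h3 : A0 F κ (fun z => A0 F κ zf y - A0 F κ zf y * zf z) y =
        A0 F κ zf y - A0 F κ zf y * A0 F κ zf y := by
      have e1 := aop_sub (fun x : κ → F => x) (fun _ => A0 F κ zf y)
        (fun z => A0 F κ zf y * zf z) y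
      rw [aop_const, aop_mul] at e1
      exact e1
    rw [h3] at h2
    nlinarith

theorem t_DEL : S_DEL := by
  intro F _ _ m n _
  have e1 : p F (m + 1) n - p F m n =
      (A0 F (Fin n))^[m] (fun z => A0 F (Fin n) zf z - zf z) (one F (Fin n)) := by
    rw [iter_sub, p_succ]
    rfl
  have e2 : p F (m + 2) n - p F (m + 1) n =
      (A0 F (Fin n))^[m] (A0 F (Fin n) (fun z => A0 F (Fin n) zf z - zf z)) (one F (Fin n)) := by
    have h := iter_sub (F := F) (κ := Fin n) (m + 1) (A0 F (Fin n) zf) zf (one F (Fin n))
    rw [← p_succ] at h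
    have h' : p F (m + 1) n = (A0 F (Fin n))^[m + 1] zf (one F (Fin n)) := rfl
    rw [← h'] at h
    rw [← h, Function.iterate_succ, Function.comp]
  rw [e1, e2, ← iter_mul]
  apply iter_mono m 0 _ _ hom_one
  intro y hy
  rw [Nat.zero_add] at hy
  have := incr m y hy
  rw [Fintype.card_fin] at this
  exact this

end Run7.h178.PM
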