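import Pool.Agent.Run7.h178.PM.Lin

/-! Piece LEML of the interface `Run7/h282/PM/Iface` (from the pieces RES and REIDX): comparison of a
non-zero element of degree `d` with the unit in the remaining `n` variables. -/

set_option autoImplicit false

open Finset Run7.h282.PM

namespace Run7.h178.PM

variable {F : Type} [Field F] {κ : Type} [DecidableEq κ]

/-- the part of `y` divisible by the monomial of `S'`, in the variables of `S` -/
def proj (S' S : Finset κ) (y : Finset κ → F) : Finset S → F :=
  fun T => y (S' ∪ T.map (Function.Embedding.subtype _))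

theorem union_erase {S' S : Finset κ} (hd : ∀ j ∈ S', j ∉ S) (T : Finset S) (t : S) :
    (S' ∪ T.map (Function.Embedding.subtype _)).erase t.val =
      S' ∪ (T.erase t).map (Function.Embedding.subtype _) := by
  ext j
  simp only [Finset.mem_erase, Finset.mem_union, Finset.mem_map, Function.Embedding.subtype_apply]
  constructor
  · rintro ⟨h1, h2 | ⟨s, hs, rfl⟩⟩
    · exact Or.inl h2
    · exact Or.inr ⟨s, ⟨fun h => h1 (by rw [h]), hs⟩, rfl⟩
  · rintro (h | ⟨s, ⟨h1, hs⟩, rfl⟩)
    · refine ⟨?_, Or.inl h⟩
      rintro rfl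
      exact hd _ h t.2
    · exact ⟨fun h => h1 (Subtype.ext h), Or.inr ⟨s, hs, rfl⟩⟩

theorem proj_mulv {S' S : Finset κ} (hd : ∀ j ∈ S', j ∉ S) (x : S → F) (y : Finset κ → F) :
    proj S' S (mulv (ext S x) y) = mulv x (proj S' S y) := by
  funext T
  unfold proj mulv
  have hdis : Disjoint S' (T.map (Function.Embedding.subtype _)) := by
    rw [Finset.disjoint_left]
    intro j hj hj'
    obtain ⟨s, _, rfl⟩ := Finset.mem_map.1 hj'
    exact hd _ hj s.2
  rw [Finset.sum_union hdis, Finset.sum_map]
  have h0 : ∑ j ∈ S', ext S x j *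
      y ((S' ∪ T.map (Function.Embedding.subtype _)).erase j) = 0 := by
    refine Finset.sum_eq_zero fun j hj => ?_
    have : ext S x j = 0 := by
      unfold Run7.h282.PM.ext
      rw [dif_neg (hd j hj)]
    rw [this, zero_mul]
  rw [h0, zero_add]
  refine Finset.sum_congr rfl fun t _ => ?_
  rw [Function.Embedding.subtype_apply, union_erase hd T t]
  have : ext S x t.val = x t := by
    unfold Run7.h282.PM.ext
    rw [dif_pos t.2]
  rw [this]

theorem zf_le_proj (S' S : Finset κ) (y : Finset κ → F) : zf y ≤ zf (proj S' S y) := by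
  by_cases h : y = 0
  · rw [h]
    have : proj S' S (0 : Finset κ → F) = 0 := by
      funext T
      rfl
    rw [this, zf_zero, zf_zero]
  · rw [zf_of_ne h]
    exact zf_nonneg _

section
variable [Fintype F] [Fintype κ]

omit [Fintype κ] in
theorem iter_le_proj {S' S : Finset κ} (hd : ∀ j ∈ S', j ∉ S) (m : ℕ) : ∀ y : Finset κ → F,
    (Aop (ext S))^[m] zf y ≤ (A0 F S)^[m] zf (proj S' S y) := by
  induction m with
  | zero => intro y; exact zf_le_proj S' S y
  | succ m ih =>
      intro y
      rw [Function.iterate_succ', Function.comp, Function.iterate_succ', Function.comp]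
      unfold A0 Aop
      apply div_le_div_of_nonneg_right _ (by positivity)
      refine Finset.sum_le_sum fun x _ => ?_
      have h := ih (mulv (ext S x) y)
      rw [proj_mulv hd] at h
      exact h

theorem iter_smul (m : ℕ) {c : F} (hc : c ≠ 0) : ∀ u : Finset κ → F,
    (A0 F κ)^[m] zf (c • u) = (A0 F κ)^[m] zf u := by
  induction m with
  | zero =>
      intro u
      show zf (c • u) = zf u
      by_cases h : u = 0
      · rw [h, smul_zero]
      · rw [zf_of_ne h, zf_of_ne (smul_ne_zero hc h)]
  | succ m ih =>
      intro u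
      rw [Function.iterate_succ', Function.comp]
      unfold A0 Aop
      congr 1
      refine Finset.sum_congr rfl fun x _ => ?_
      have h := ih (mulv x u)
      rw [← (t_BASE F κ).2.2.2.2.2.2.2 c x u] at h
      exact h

end

theorem t_LEML (hRES : S_RES) (hREIDX : S_REIDX) : S_LEML := by
  intro F _ _ κ _ _ d n m y hcard hy hne
  obtain ⟨S', hS'⟩ : ∃ S, y S ≠ 0 := by
    by_contra h
    push Not at h
    exact hne (funext h)
  have hSd : S'.card = d := hy S' hS'
  have hdis : ∀ j ∈ S', j ∉ S'ᶜ := fun j hj => by
    rw [Finset.mem_compl]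
    exact fun h => h hj
  have hn : (S'ᶜ).card = n := by
    rw [Finset.card_compl, hcard, hSd]
    omega
  have hp : proj S' S'ᶜ y = (y S') • one F (S'ᶜ : Finset κ) := by
    funext T
    unfold proj
    rw [Pi.smul_apply]
    unfold one
    by_cases hT : T = ∅
    · rw [if_pos hT, hT]
      simp
    · rw [if_neg hT, smul_zero]
      by_contra h
      have h1 := hy _ h
      rw [Finset.card_union_of_disjoint, Finset.card_map, hSd] at h1
      · have : T.card ≠ 0 := by
          rw [Finset.card_ne_zero]
          exact Finset.nonempty_iff_ne_empty.2 hT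
        omega
      · rw [Finset.disjoint_left]
        intro j hj hj'
        obtain ⟨s, _, rfl⟩ := Finset.mem_map.1 hj'
        exact hdis _ hj s.2
  have h1 := hRES F κ S'ᶜ m y
  have h2 := iter_le_proj hdis m y
  rw [hp, iter_smul m hS'] at h2
  have e : (S'ᶜ : Finset κ) ≃ Fin n := (Finset.equivFin _).trans (finCongr hn)
  have h3 := (hREIDX F (S'ᶜ : Finset κ) (Fin n) e m).2
  rw [h3] at h2
  exact le_trans h1 h2

end Run7.h178.PM
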