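import Pool.Agent.Run7.h282.PM.Iface
import Pool.Agent.Run7.h282.PM.BASE

/-! Elementary facts on the averaging operators `A0`, `Aop` of the interface `Run7/h282/PM/Iface`:
monotonicity in a fixed degree, linearity, constants, the comparison `zf ≤ A zf`. -/

set_option autoImplicit false

open Finset Run7.h282.PM

namespace Run7.h178.PM

variable {F : Type} [Field F] [Fintype F] {κ : Type} [Fintype κ] [DecidableEq κ]

omit [Fintype F] [Fintype κ] in
theorem zf_nonneg (y : Finset κ → F) : 0 ≤ zf y := by
  unfold zf
  by_cases h : y = 0 <;> simp [h]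

omit [Fintype F] [Fintype κ] in
theorem zf_le_one (y : Finset κ → F) : zf y ≤ 1 := by
  unfold zf
  by_cases h : y = 0 <;> simp [h]

omit [Fintype F] [Fintype κ] in
theorem zf_zero : zf (0 : Finset κ → F) = 1 := by
  unfold zf
  simp

omit [Fintype F] [Fintype κ] in
theorem zf_of_ne {y : Finset κ → F} (h : y ≠ 0) : zf y = 0 := by
  unfold zf
  simp [h]

omit [Fintype F] [Fintype κ] in
theorem mulv_zero (x : κ → F) : mulv x (0 : Finset κ → F) = 0 := by
  funext S
  simp [mulv]

section aop
variable {ι : Type} [Fintype ι] [DecidableEq ι] (φ : (ι → F) → (κ → F))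

omit [Fintype κ] in
theorem aop_mono {f g : (Finset κ → F) → ℝ} {y : Finset κ → F}
    (h : ∀ x, f (mulv (φ x) y) ≤ g (mulv (φ x) y)) : Aop φ f y ≤ Aop φ g y := by
  unfold Aop
  apply div_le_div_of_nonneg_right _ (by positivity)
  exact Finset.sum_le_sum fun x _ => h x

omit [Fintype κ] in
theorem aop_congr {f g : (Finset κ → F) → ℝ} {y : Finset κ → F}
    (h : ∀ x, f (mulv (φ x) y) = g (mulv (φ x) y)) : Aop φ f y = Aop φ g y := by
  unfold Aop
  rw [Finset.sum_congr rfl fun x _ => h x]

omit [Fintype κ] in
theorem aop_const (c : ℝ) (y : Finset κ → F) : Aop φ (fun _ => c) y = c := by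
  unfold Aop
  rw [Finset.sum_const, Finset.card_univ, Fintype.card_fun, nsmul_eq_mul]
  push_cast
  have : (0 : ℝ) < (Fintype.card F : ℝ) := by exact_mod_cast Fintype.card_pos
  field_simp

omit [Fintype κ] in
theorem aop_add (f g : (Finset κ → F) → ℝ) (y : Finset κ → F) :
    Aop φ (fun z => f z + g z) y = Aop φ f y + Aop φ g y := by
  unfold Aop
  rw [Finset.sum_add_distrib, add_div]

omit [Fintype κ] in
theorem aop_sub (f g : (Finset κ → F) → ℝ) (y : Finset κ → F) :
    Aop φ (fun z => f z - g z) y = Aop φ f y - Aop φ g y := by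
  unfold Aop
  rw [Finset.sum_sub_distrib, sub_div]

omit [Fintype κ] in
theorem aop_mul (c : ℝ) (f : (Finset κ → F) → ℝ) (y : Finset κ → F) :
    Aop φ (fun z => c * f z) y = c * Aop φ f y := by
  unfold Aop
  rw [← Finset.mul_sum, mul_div_assoc]

end aop

/-- If `f ≤ g` in degree `d + m` then `A^m f ≤ A^m g` in degree `d`. -/
theorem iter_mono {f g : (Finset κ → F) → ℝ} (m : ℕ) : ∀ (d : ℕ),
    (∀ y, Hom (d + m) y → f y ≤ g y) → ∀ y, Hom d y → (A0 F κ)^[m] f y ≤ (A0 F κ)^[m] g y := by
  induction m with
  | zero => intro d h y hy; exact h y hy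
  | succ m ih =>
      intro d h y hy
      rw [Function.iterate_succ', Function.comp, Function.comp]
      apply aop_mono
      intro x
      apply ih (d + 1)
      · intro z hz
        exact h z (by rw [show d + (m + 1) = d + 1 + m by ring]; exact hz)
      · exact ((t_BASE F κ).2.1) d x y hy

theorem iter_const (m : ℕ) (c : ℝ) (y : Finset κ → F) : (A0 F κ)^[m] (fun _ => c) y = c := by
  induction m generalizing y with
  | zero => rfl
  | succ m ih =>
      rw [Function.iterate_succ', Function.comp]
      have h : (A0 F κ)^[m] (fun _ => c) = fun _ => c := by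
        funext z
        exact ih z
      rw [h]
      exact aop_const _ c y

theorem iter_add (m : ℕ) (f g : (Finset κ → F) → ℝ) (y : Finset κ → F) :
    (A0 F κ)^[m] (fun z => f z + g z) y = (A0 F κ)^[m] f y + (A0 F κ)^[m] g y := by
  induction m generalizing y with
  | zero => rfl
  | succ m ih =>
      rw [Function.iterate_succ', Function.comp, Function.comp, Function.comp]
      have h : (A0 F κ)^[m] (fun z => f z + g z) =
          fun z => (A0 F κ)^[m] f z + (A0 F κ)^[m] g z := by
        funext z
        exact ih z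
      rw [h]
      exact aop_add _ _ _ y

theorem iter_sub (m : ℕ) (f g : (Finset κ → F) → ℝ) (y : Finset κ → F) :
    (A0 F κ)^[m] (fun z => f z - g z) y = (A0 F κ)^[m] f y - (A0 F κ)^[m] g y := by
  induction m generalizing y with
  | zero => rfl
  | succ m ih =>
      rw [Function.iterate_succ', Function.comp, Function.comp, Function.comp]
      have h : (A0 F κ)^[m] (fun z => f z - g z) =
          fun z => (A0 F κ)^[m] f z - (A0 F κ)^[m] g z := by
        funext z
        exact ih z
      rw [h]
      exact aop_sub _ _ _ y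

theorem iter_mul (m : ℕ) (c : ℝ) (f : (Finset κ → F) → ℝ) (y : Finset κ → F) :
    (A0 F κ)^[m] (fun z => c * f z) y = c * (A0 F κ)^[m] f y := by
  induction m generalizing y with
  | zero => rfl
  | succ m ih =>
      rw [Function.iterate_succ', Function.comp, Function.comp]
      have h : (A0 F κ)^[m] (fun z => c * f z) = fun z => c * (A0 F κ)^[m] f z := by
        funext z
        exact ih z
      rw [h]
      exact aop_mul _ _ _ y

omit [Fintype F] [Fintype κ] in
theorem hom_one : Hom 0 (one F κ) := (t_BASE F κ).2.2.1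

theorem a0_zf_nonneg (y : Finset κ → F) : 0 ≤ A0 F κ zf y := by
  rw [← aop_const (fun x : κ → F => x) 0 y]
  exact aop_mono _ fun x => zf_nonneg _

theorem a0_zf_le_one (y : Finset κ → F) : A0 F κ zf y ≤ 1 := by
  rw [← aop_const (fun x : κ → F => x) 1 y]
  exact aop_mono _ fun x => zf_le_one _

theorem a0_zero (f : (Finset κ → F) → ℝ) : A0 F κ f 0 = f 0 := by
  have h : A0 F κ f 0 = Aop (fun x : κ → F => x) (fun _ => f 0) (0 : Finset κ → F) :=
    aop_congr _ fun x => by rw [mulv_zero]
  rw [h, aop_const]

theorem zf_le_a0 (y : Finset κ → F) : zf y ≤ A0 F κ zf y := by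
  by_cases h : y = 0
  · rw [h, a0_zero]
  · rw [zf_of_ne h]
    exact a0_zf_nonneg y

end Run7.h178.PM
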