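import Pool.Agent.Run7.h282.PM.Iface

/-! Piece RKB of the interface `Run7/h282/PM/Iface`: a non-zero element of degree `d` is killed by at
most `q ^ d` linear forms. -/

set_option autoImplicit false

open Finset Run7.h282.PM

namespace Run7.h178.PM

variable {F : Type} [Field F] [Fintype F] {κ : Type} [Fintype κ] [DecidableEq κ]

omit [Fintype F] [Fintype κ] in
theorem eq_of_restrict {y : Finset κ → F} {S : Finset κ} (hS : y S ≠ 0) {x x' : κ → F}
    (hx : mulv x y = 0) (hx' : mulv x' y = 0) (h : ∀ s ∈ S, x s = x' s) : x = x' := by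
  funext s
  by_cases hs : s ∈ S
  · exact h s hs
  · have h1 : mulv x y (insert s S) = 0 := by rw [hx]; rfl
    have h2 : mulv x' y (insert s S) = 0 := by rw [hx']; rfl
    unfold mulv at h1 h2
    rw [Finset.sum_insert hs, Finset.erase_insert hs] at h1 h2
    have h3 : ∑ j ∈ S, x j * y ((insert s S).erase j) = ∑ j ∈ S, x' j * y ((insert s S).erase j) :=
      Finset.sum_congr rfl fun j hj => by rw [h j hj]
    rw [h3] at h1
    have h4 : x s * y S = x' s * y S := by
      rw [eq_neg_of_add_eq_zero_left h1, eq_neg_of_add_eq_zero_left h2]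
    exact mul_right_cancel₀ hS h4

theorem t_RKB : S_RKB := by
  intro F _ _ κ _ _ d y hy hne
  classical
  obtain ⟨S, hS⟩ : ∃ S, y S ≠ 0 := by
    by_contra h
    push Not at h
    exact hne (funext h)
  have hSd : S.card = d := hy S hS
  unfold A0 Aop q
  apply div_le_div_of_nonneg_right _ (by positivity)
  have h1 : ∑ x : κ → F, zf (mulv x y) =
      ((univ.filter (fun x : κ → F => mulv x y = 0)).card : ℝ) := by
    rw [Finset.card_filter]
    push_cast
    refine Finset.sum_congr rfl fun x _ => ?_
    unfold zf
    by_cases hx : mulv x y = 0 <;> simp [hx]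
  rw [h1]
  have h2 : (univ.filter (fun x : κ → F => mulv x y = 0)).card ≤ Fintype.card (S → F) := by
    rw [← Finset.card_univ]
    apply Finset.card_le_card_of_injOn (fun x => fun s : S => x s)
    · intro x _
      exact Finset.mem_coe.2 (Finset.mem_univ _)
    · intro x hx x' hx' h
      simp only [Finset.coe_filter, Finset.mem_univ, true_and, Set.mem_setOf_eq] at hx hx'
      exact eq_of_restrict hS hx hx' fun s hs => congrFun h ⟨s, hs⟩
  have h3 : Fintype.card (S → F) = Fintype.card F ^ d := by
    rw [Fintype.card_fun, Fintype.card_coe, hSd]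
  rw [h3] at h2
  exact_mod_cast h2

end Run7.h178.PM
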