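import Pool.Agent.Run7.h178.PM.Lin
import Pool.Agent.Run7.h178.PM.RKB

/-! Piece PB of the interface `Run7/h282/PM/Iface`: bounds for `p`. -/

set_option autoImplicit false

open Finset Run7.h282.PM

namespace Run7.h178.PM

theorem one_lt_q (F : Type) [Field F] [Fintype F] : 1 < q F := by
  unfold q
  exact_mod_cast Fintype.one_lt_card

theorem p_nonneg (F : Type) [Field F] [Fintype F] (m n : ℕ) : 0 ≤ p F m n := by
  unfold p
  rw [← iter_const (F := F) (κ := Fin n) m 0 (one F (Fin n))]
  exact iter_mono m 0 (fun y _ => zf_nonneg y) _ hom_one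

theorem p_le_one (F : Type) [Field F] [Fintype F] (m n : ℕ) : p F m n ≤ 1 := by
  unfold p
  rw [← iter_const (F := F) (κ := Fin n) m 1 (one F (Fin n))]
  exact iter_mono m 0 (fun y _ => zf_le_one y) _ hom_one

theorem p_succ (F : Type) [Field F] [Fintype F] (m n : ℕ) :
    p F (m + 1) n = (A0 F (Fin n))^[m] (A0 F (Fin n) zf) (one F (Fin n)) := by
  unfold p
  rw [Function.iterate_succ, Function.comp]

theorem p_mono (F : Type) [Field F] [Fintype F] (m n : ℕ) : p F m n ≤ p F (m + 1) n := by
  rw [p_succ]
  exact iter_mono m 0 (fun y _ => zf_le_a0 y) _ hom_one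

theorem p_step (F : Type) [Field F] [Fintype F] (m n : ℕ) :
    p F (m + 1) n ≤ p F m n + q F ^ m / q F ^ n := by
  rw [p_succ]
  have h1 : (A0 F (Fin n))^[m] (A0 F (Fin n) zf) (one F (Fin n)) ≤
      (A0 F (Fin n))^[m] (fun z => zf z + q F ^ m / q F ^ n) (one F (Fin n)) := by
    apply iter_mono m 0 _ _ hom_one
    intro y hy
    rw [Nat.zero_add] at hy
    by_cases h : y = 0
    · rw [h, a0_zero]
      have : 0 ≤ q F ^ m / q F ^ n := by
        have := one_lt_q F
        positivity
      linarith
    · rw [zf_of_ne h]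
      have := t_RKB F (Fin n) m y hy h
      rw [Fintype.card_fin] at this
      linarith
  have h2 := iter_add (F := F) (κ := Fin n) m zf (fun _ => q F ^ m / q F ^ n) (one F (Fin n))
  rw [iter_const] at h2
  rw [h2] at h1
  exact h1

theorem p_bound (F : Type) [Field F] [Fintype F] (m n : ℕ) :
    p F m n ≤ q F ^ m / ((q F - 1) * q F ^ n) := by
  have hq := one_lt_q F
  have hq0 : q F - 1 ≠ 0 := by linarith
  have hqn : q F ^ n ≠ 0 := by positivity
  have key : p F m n ≤ (q F ^ m - 1) / ((q F - 1) * q F ^ n) := by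
    induction m with
    | zero =>
        unfold p
        rw [Function.iterate_zero, id, zf_of_ne (t_BASE F (Fin n)).2.2.2.1]
        simp
    | succ m ih =>
        have h := p_step F m n
        have h2 : (q F ^ (m + 1) - 1) / ((q F - 1) * q F ^ n) =
            (q F ^ m - 1) / ((q F - 1) * q F ^ n) + q F ^ m / q F ^ n := by
          field_simp
          ring
        linarith
  refine le_trans key ?_
  apply div_le_div_of_nonneg_right (by linarith)
  have : 0 < q F - 1 := by linarith
  positivity

theorem t_PB : S_PB := by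
  intro F _ _ m n
  exact ⟨p_nonneg F m n, p_le_one F m n, p_mono F m n, fun _ => p_bound F m n⟩

end Run7.h178.PM
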